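import Mathlib

open Finset

namespace Pool.Agent.Results.MP_19ad23_co.NonNestedFails

/-! ### definitions -/

/-- `e` and `f` are nested: one of the intervals contains the other. -/
def Nested {n : ℕ} (e f : Fin n × Fin n) : Prop :=
  (e.1 < f.1 ∧ f.2 < e.2) ∨ (f.1 < e.1 ∧ e.2 < f.2)

/-- `e` and `f` are separated: the intervals are disjoint. -/
def Separated {n : ℕ} (e f : Fin n × Fin n) : Prop :=
  e.2 < f.1 ∨ f.2 < e.1

/-- `e` and `f` cross. -/
def Crossing {n : ℕ} (e f : Fin n × Fin n) : Prop :=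
  (e.1 < f.1 ∧ f.1 < e.2 ∧ e.2 < f.2) ∨ (f.1 < e.1 ∧ e.1 < f.2 ∧ f.2 < e.2)

/-- `M` is a matching of the ordered graph `G` on `[n]`, each edge written as `(x, y)`, `x < y`. -/
def IsMatchingOf {n : ℕ} (G : SimpleGraph (Fin n)) (M : Finset (Fin n × Fin n)) : Prop :=
  (∀ e ∈ M, e.1 < e.2 ∧ G.Adj e.1 e.2) ∧
  (∀ e ∈ M, ∀ f ∈ M, e ≠ f → e.1 ≠ f.1 ∧ e.1 ≠ f.2 ∧ e.2 ≠ f.1 ∧ e.2 ≠ f.2)

/-- no two edges are nested -/
def NonNested {n : ℕ} (M : Finset (Fin n × Fin n)) : Prop :=
  ∀ e ∈ M, ∀ f ∈ M, e ≠ f → ¬ Nested e f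

/-- the edges can be partitioned so that edges of the same part cross and edges of different
parts are separated -/
def StronglyNonNested {n : ℕ} (M : Finset (Fin n × Fin n)) : Prop :=
  ∃ part : Fin n × Fin n → ℕ, ∀ e ∈ M, ∀ f ∈ M, e ≠ f →
    (part e = part f → Crossing e f) ∧ (part e ≠ part f → Separated e f)

/-- the largest number of edges of an ordered graph on `[n]` without a non-nested `k`-matching -/
noncomputable def exNonNested (n k : ℕ) : ℕ :=
  sSup {m | ∃ G : SimpleGraph (Fin n), G.edgeSet.ncard = m ∧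
    ¬ ∃ M, IsMatchingOf G M ∧ M.card = k ∧ NonNested M}

/-- the largest number of edges of an ordered graph on `[n]` without a strongly non-nested
`k`-matching -/
noncomputable def exStronglyNonNested (n k : ℕ) : ℕ :=
  sSup {m | ∃ G : SimpleGraph (Fin n), G.edgeSet.ncard = m ∧
    ¬ ∃ M, IsMatchingOf G M ∧ M.card = k ∧ StronglyNonNested M}

/-! ### basic facts -/

lemma nonNested_of_strongly {n : ℕ} {G : SimpleGraph (Fin n)} {M : Finset (Fin n × Fin n)}
    (hM : IsMatchingOf G M) (h : StronglyNonNested M) : NonNested M := by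
  obtain ⟨part, hp⟩ := h
  intro e he f hf hef hn
  have h1 := hp e he f hf hef
  have h2 := (hM.1 e he).1
  have h3 := (hM.1 f hf).1
  unfold Crossing Separated at h1
  unfold Nested at hn
  simp only [Fin.lt_def] at h1 h2 h3 hn
  by_cases hpe : part e = part f
  · have := h1.1 hpe
    omega
  · have := h1.2 hpe
    omega

/-- number of elements with `g`-value below `v` -/
def cnt {α : Type*} (M : Finset α) (g : α → ℕ) (v : ℕ) : ℕ := (M.filter (fun e => g e < v)).card

lemma cnt_zero {α : Type*} (M : Finset α) (g : α → ℕ) : cnt M g 0 = 0 := by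
  simp [cnt]

lemma cnt_mono {α : Type*} (M : Finset α) (g : α → ℕ) {v w : ℕ} (h : v ≤ w) :
    cnt M g v ≤ cnt M g w := by
  apply Finset.card_le_card
  intro e he
  rw [Finset.mem_filter] at he ⊢
  exact ⟨he.1, by omega⟩

lemma cnt_le_card {α : Type*} (M : Finset α) (g : α → ℕ) (v : ℕ) : cnt M g v ≤ M.card :=
  Finset.card_le_card (Finset.filter_subset _ _)

lemma cnt_full {α : Type*} (M : Finset α) (g : α → ℕ) {v : ℕ} (h : ∀ e ∈ M, g e < v) :
    cnt M g v = M.card := by
  unfold cnt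
  rw [Finset.filter_true_of_mem h]

lemma cnt_succ_not {α : Type*} (M : Finset α) (g : α → ℕ) {v : ℕ} (h : ∀ e ∈ M, g e ≠ v) :
    cnt M g (v + 1) = cnt M g v := by
  unfold cnt
  congr 1
  ext e
  rw [Finset.mem_filter, Finset.mem_filter]
  constructor
  · rintro ⟨h1, h2⟩
    exact ⟨h1, by have := h e h1; omega⟩
  · rintro ⟨h1, h2⟩
    exact ⟨h1, by omega⟩

lemma cnt_succ_mem {α : Type*} [DecidableEq α] (M : Finset α) (g : α → ℕ)
    (hinj : ∀ e ∈ M, ∀ f ∈ M, e ≠ f → g e ≠ g f) {v : ℕ} {e : α} (he : e ∈ M) (hv : g e = v) :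
    cnt M g (v + 1) = cnt M g v + 1 := by
  unfold cnt
  have : M.filter (fun f => g f < v + 1) = insert e (M.filter (fun f => g f < v)) := by
    ext f
    rw [Finset.mem_insert, Finset.mem_filter, Finset.mem_filter]
    constructor
    · rintro ⟨h1, h2⟩
      by_cases hfe : f = e
      · exact Or.inl hfe
      · right
        have := hinj f h1 e he hfe
        exact ⟨h1, by omega⟩
    · rintro (h | ⟨h1, h2⟩)
      · subst h
        exact ⟨he, by omega⟩
      · exact ⟨h1, by omega⟩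
  rw [this, Finset.card_insert_of_notMem]
  rw [Finset.mem_filter]
  omega

/-- openers before `v` -/
abbrev op {n : ℕ} (M : Finset (Fin n × Fin n)) (v : ℕ) : ℕ := cnt M (fun e => (e.1 : ℕ)) v

/-- closers before `v` -/
abbrev cl {n : ℕ} (M : Finset (Fin n × Fin n)) (v : ℕ) : ℕ := cnt M (fun e => (e.2 : ℕ)) v

section matching

variable {n : ℕ} {G : SimpleGraph (Fin n)} {M : Finset (Fin n × Fin n)}

lemma inj1 (hM : IsMatchingOf G M) : ∀ e ∈ M, ∀ f ∈ M, e ≠ f → (e.1 : ℕ) ≠ (f.1 : ℕ) :=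
  fun e he f hf hef h => (hM.2 e he f hf hef).1 (Fin.ext h)

lemma inj2 (hM : IsMatchingOf G M) : ∀ e ∈ M, ∀ f ∈ M, e ≠ f → (e.2 : ℕ) ≠ (f.2 : ℕ) :=
  fun e he f hf hef h => (hM.2 e he f hf hef).2.2.2 (Fin.ext h)

/-- openers before the left end of an edge = closers before its right end -/
lemma op_eq_cl (hM : IsMatchingOf G M) (hN : NonNested M) {e : Fin n × Fin n} (he : e ∈ M) :
    op M (e.1 : ℕ) = cl M (e.2 : ℕ) := by
  unfold op cl cnt
  congr 1
  ext f
  rw [Finset.mem_filter, Finset.mem_filter]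
  by_cases hfe : f = e
  · subst hfe
    simp
  · by_cases hf : f ∈ M
    · have h1 := hN f hf e he hfe
      have h2 := inj1 hM f hf e he hfe
      have h3 := inj2 hM f hf e he hfe
      unfold Nested at h1
      simp only [Fin.lt_def] at h1
      constructor
      · rintro ⟨_, h4⟩
        have h4' : (f.1 : ℕ) < e.1 := h4
        exact ⟨hf, by show (f.2 : ℕ) < e.2; omega⟩
      · rintro ⟨_, h4⟩
        have h4' : (f.2 : ℕ) < e.2 := h4
        exact ⟨hf, by show (f.1 : ℕ) < e.1; omega⟩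
    · simp [hf]

/-- each vertex is an opener, a closer or unmatched -/
lemma tri (hM : IsMatchingOf G M) (v : ℕ) :
    (∃ e ∈ M, (e.1 : ℕ) = v ∧ op M (v + 1) = op M v + 1 ∧ cl M (v + 1) = cl M v) ∨
    (∃ e ∈ M, (e.2 : ℕ) = v ∧ op M (v + 1) = op M v ∧ cl M (v + 1) = cl M v + 1) ∨
    ((∀ e ∈ M, (e.1 : ℕ) ≠ v) ∧ (∀ e ∈ M, (e.2 : ℕ) ≠ v) ∧
      op M (v + 1) = op M v ∧ cl M (v + 1) = cl M v) := by
  have hcross : ∀ e ∈ M, ∀ f ∈ M, (e.1 : ℕ) ≠ (f.2 : ℕ) := by
    intro e he f hf h
    by_cases hef : e = f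
    · subst hef
      have := (hM.1 e he).1
      rw [Fin.lt_def] at this
      omega
    · exact (hM.2 e he f hf hef).2.1 (Fin.ext h)
  by_cases h1 : ∃ e ∈ M, (e.1 : ℕ) = v
  · obtain ⟨e, he, hev⟩ := h1
    left
    refine ⟨e, he, hev, cnt_succ_mem M _ (inj1 hM) he hev, cnt_succ_not M _ ?_⟩
    intro f hf h
    exact hcross e he f hf (hev.trans h.symm)
  · push Not at h1
    right
    by_cases h2 : ∃ e ∈ M, (e.2 : ℕ) = v
    · obtain ⟨e, he, hev⟩ := h2
      left
      exact ⟨e, he, hev, cnt_succ_not M _ h1, cnt_succ_mem M _ (inj2 hM) he hev⟩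
    · push Not at h2
      right
      exact ⟨h1, h2, cnt_succ_not M _ h1, cnt_succ_not M _ h2⟩

/-- the number of matched vertices in an interval is at most its length -/
lemma sum_le (hM : IsMatchingOf G M) {v w : ℕ} (h : v ≤ w) :
    op M w + cl M w + v ≤ op M v + cl M v + w := by
  induction w, h using Nat.le_induction with
  | base => omega
  | succ w hw ih =>
    rcases tri hM w with ⟨e, -, -, h1, h2⟩ | ⟨e, -, -, h1, h2⟩ | ⟨-, -, h1, h2⟩
    · omega
    · omega
    · omega

end matching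

/-! ### the general construction -/

/-- the graph on `[n]` given by a relation on pairs `x < y` -/
def mk (n : ℕ) (R : ℕ → ℕ → Prop) : SimpleGraph (Fin n) where
  Adj x y := ((x : ℕ) < y ∧ R x y) ∨ ((y : ℕ) < x ∧ R y x)
  symm := ⟨fun x y h => h.symm⟩
  loopless := ⟨fun x h => by omega⟩

/-- in a non-nested `k`-matching no edge ends beyond `N`, if such edges start below `k - 1` -/
lemma no_long {n N k : ℕ} {R : ℕ → ℕ → Prop} {M : Finset (Fin n × Fin n)}
    (hR : ∀ x y, R x y → N ≤ y → x < k - 1)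
    (hM : IsMatchingOf (mk n R) M) (hN : NonNested M) (hk : M.card = k) :
    ∀ e ∈ M, (e.2 : ℕ) < N := by
  by_contra hcon
  push Not at hcon
  obtain ⟨e0, he0, he0N⟩ := hcon
  obtain ⟨e, he, hmax⟩ := Finset.exists_max_image M (fun e => (e.2 : ℕ)) ⟨e0, he0⟩
  have heN : N ≤ (e.2 : ℕ) := he0N.trans (hmax e0 he0)
  have h1 := hM.1 e he
  have h2 : R e.1 e.2 := by
    have h3 := h1.1
    rw [Fin.lt_def] at h3
    rcases h1.2 with h | h
    · exact h.2
    · omega
  have h3 := hR _ _ h2 heN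
  have h4 := op_eq_cl hM hN he
  have h5 : cl M ((e.2 : ℕ) + 1) = M.card := cnt_full M _ (fun f hf => by
    have := hmax f hf
    omega)
  have h6 : cl M ((e.2 : ℕ) + 1) = cl M (e.2 : ℕ) + 1 := cnt_succ_mem M _ (inj2 hM) he rfl
  have h7 := sum_le hM (Nat.zero_le (e.1 : ℕ))
  have h8 : op M 0 = 0 := cnt_zero _ _
  have h9 : cl M 0 = 0 := cnt_zero _ _
  omega

/-- lower bound for the number of edges -/
lemma card_edges {n : ℕ} {R : ℕ → ℕ → Prop} (T : Finset (ℕ × ℕ))
    (hT : ∀ p ∈ T, p.1 < p.2 ∧ p.2 < n ∧ R p.1 p.2) : T.card ≤ (mk n R).edgeSet.ncard := by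
  classical
  have hfin : (mk n R).edgeSet.Finite := Set.toFinite _
  rw [Set.ncard_eq_toFinset_card _ hfin]
  have hlt : ∀ p ∈ T, p.1 < n := fun p hp => by have := hT p hp; omega
  rw [← Finset.card_attach]
  apply Finset.card_le_card_of_injOn
    (fun p => s((⟨p.1.1, hlt p.1 p.2⟩ : Fin n), (⟨p.1.2, (hT p.1 p.2).2.1⟩ : Fin n)))
  · intro p _
    rw [Finset.mem_coe, Set.Finite.mem_toFinset, SimpleGraph.mem_edgeSet]
    exact Or.inl ⟨(hT p.1 p.2).1, (hT p.1 p.2).2.2⟩
  · intro p _ q _ hpq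
    have h1 := (hT p.1 p.2).1
    have h2 := (hT q.1 q.2).1
    simp only [Sym2.eq_iff, Fin.mk.injEq] at hpq
    apply Subtype.ext
    apply Prod.ext <;> omega

lemma rel_of_mem {n : ℕ} {R : ℕ → ℕ → Prop} {M : Finset (Fin n × Fin n)}
    (hM : IsMatchingOf (mk n R) M) {e : Fin n × Fin n} (he : e ∈ M) :
    (e.1 : ℕ) < e.2 ∧ R e.1 e.2 := by
  have h1 := hM.1 e he
  have h3 := h1.1
  rw [Fin.lt_def] at h3
  rcases h1.2 with h | h
  · exact ⟨h3, h.2⟩
  · omega

/-- the relation for general `k ≥ 5` -/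
def Rel (k x y : ℕ) : Prop :=
  (y ≤ 2 * k → ¬ (x = 0 ∧ y < k - 1) ∧ ¬ (y = 2 * k ∧ k + 2 ≤ x) ∧
    ¬ ((x = 2 ∨ x = 3) ∧ (y = k + 2 ∨ y = k + 3))) ∧ (2 * k < y → x < k - 1)

theorem no_nonNested {n k : ℕ} (hk : 5 ≤ k) :
    ¬ ∃ M, IsMatchingOf (mk n (Rel k)) M ∧ M.card = k ∧ NonNested M := by
  rintro ⟨M, hM, hcard, hN⟩
  have hlong : ∀ e ∈ M, (e.2 : ℕ) < 2 * k + 1 := by
    apply no_long (k := k) _ hM hN hcard
    intro x y h1 h2
    exact h1.2 (by omega)
  have hO : op M (2 * k + 1) = k := by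
    have := cnt_full M (fun e => (e.1 : ℕ)) (v := 2 * k + 1) (fun e he => by
      have h1 := hlong e he
      have h2 := (rel_of_mem hM he).1
      omega)
    rw [hcard] at this
    exact this
  have hC : cl M (2 * k + 1) = k := by
    have := cnt_full M (fun e => (e.2 : ℕ)) (v := 2 * k + 1) (fun e he => hlong e he)
    rw [hcard] at this
    exact this
  have hOle : ∀ v, op M v ≤ k := fun v => hcard ▸ cnt_le_card M _ v
  have hO0 : op M 0 = 0 := cnt_zero _ _
  have hC0 : cl M 0 = 0 := cnt_zero _ _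
  have hOm : ∀ v w, v ≤ w → op M v ≤ op M w := fun v w h => cnt_mono M _ h
  have hCm : ∀ v w, v ≤ w → cl M v ≤ cl M w := fun v w h => cnt_mono M _ h
  have hS : ∀ v w, v ≤ w → op M w + cl M w + v ≤ op M v + cl M v + w := fun v w h => sum_le hM h
  -- the relation at k+2 and k+3
  have hbad : ∀ e ∈ M, ((e.1 : ℕ) = 2 ∨ (e.1 : ℕ) = 3) → ((e.2 : ℕ) = k + 2 ∨ (e.2 : ℕ) = k + 3) →
      False := by
    intro e he h1 h2
    have h3 := (rel_of_mem hM he).2
    have h4 := (h3.1 (by omega)).2.2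
    exact h4 ⟨h1, h2⟩
  -- vertex 0
  have h0 : (cl M (k - 1) = 0) ∨ (op M 1 = 0 ∧ cl M 1 = 0) := by
    rcases tri hM 0 with ⟨e, he, h1, h2, h3⟩ | ⟨e, he, h1, h2, h3⟩ | ⟨-, -, h2, h3⟩
    · left
      have h4 := (rel_of_mem hM he).2
      have h5 := hlong e he
      have h6 := (h4.1 (by omega)).1
      have h7 : k - 1 ≤ (e.2 : ℕ) := by
        by_contra hcon
        exact h6 ⟨h1, by omega⟩
      have h8 := op_eq_cl hM hN he
      rw [h1] at h8
      have h9 := hCm _ _ h7
      omega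
    · have := (rel_of_mem hM he).1
      omega
    · right
      rw [zero_add] at h2 h3
      omega
  -- vertex 2k
  have h2k : (op M (k + 2) = k) ∨ (op M (2 * k) = k ∧ cl M (2 * k) = k) := by
    rcases tri hM (2 * k) with ⟨e, he, h1, h2, h3⟩ | ⟨e, he, h1, h2, h3⟩ | ⟨-, -, h2, h3⟩
    · have h4 := hlong e he
      have := (rel_of_mem hM he).1
      omega
    · left
      have h4 := (rel_of_mem hM he).2
      have h6 := (h4.1 (by omega)).2.1
      have h7 : (e.1 : ℕ) ≤ k + 1 := by
        by_contra hcon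
        exact h6 ⟨h1, by omega⟩
      have h8 := op_eq_cl hM hN he
      rw [h1] at h8
      have h9 : op M ((e.1 : ℕ) + 1) = op M (e.1 : ℕ) + 1 := cnt_succ_mem M _ (inj1 hM) he rfl
      have h10 := hOm ((e.1 : ℕ) + 1) (k + 2) (by omega)
      have h11 := hOle (k + 2)
      omega
    · right
      omega
  have s1 := hS 0 (k + 2) (by omega)
  have s2 := hS (k + 2) (2 * k + 1) (by omega)
  have s3 := hS 0 (k - 1) (by omega)
  have s4 := hS (k - 1) (k + 2) (by omega)
  have s5 := hS (k + 2) (2 * k) (by omega)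
  have s6 := hS 1 (k + 2) (by omega)
  have s7 := hS (k + 3) (2 * k + 1) (by omega)
  have s8 := hS (k + 3) (2 * k) (by omega)
  have s9 := hS (k + 4) (2 * k + 1) (by omega)
  have s10 := hS (k + 4) (2 * k) (by omega)
  have s11 := hS 4 (2 * k + 1) (by omega)
  have s12 := hS 1 (2 * k) (by omega)
  have m1 := hCm 4 (k - 1) (by omega)
  have m2 := hOm (k - 1) (k + 2) (by omega)
  have m3 := hOm (k + 2) (k + 3) (by omega)
  have b1 := hOle (k + 3)
  have b2 := hOle (k + 4)
  have b3 := hOle (k + 2)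
  -- position of the left end
  have hpos : ∀ e ∈ M, (e.2 : ℕ) ≤ k + 3 → op M (e.1 : ℕ) = cl M (e.2 : ℕ) ∧
      op M (e.1 : ℕ) + cl M (e.1 : ℕ) ≤ (e.1 : ℕ) ∧
      op M (2 * k + 1) + cl M (2 * k + 1) + (e.1 : ℕ) ≤
        op M (e.1 : ℕ) + cl M (e.1 : ℕ) + (2 * k + 1) ∧
      op M (2 * k) + cl M (2 * k) + (e.1 : ℕ) ≤ op M (e.1 : ℕ) + cl M (e.1 : ℕ) + 2 * k ∧
      ((e.1 : ℕ) ≤ k - 1 → cl M (e.1 : ℕ) ≤ cl M (k - 1)) ∧
      (k - 1 ≤ (e.1 : ℕ) → op M (k - 1) ≤ op M (e.1 : ℕ)) ∧
      (4 ≤ (e.1 : ℕ) → op M 4 ≤ op M (e.1 : ℕ)) ∧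
      cl M (e.1 : ℕ) ≤ cl M (e.2 : ℕ) ∧
      ((e.1 : ℕ) ≤ k + 2 → op M (k + 2) + cl M (k + 2) + (e.1 : ℕ) ≤
        op M (e.1 : ℕ) + cl M (e.1 : ℕ) + (k + 2)) ∧ (e.1 : ℕ) < e.2 ∧
      (1 ≤ (e.1 : ℕ) → op M (e.1 : ℕ) + cl M (e.1 : ℕ) + 1 ≤ op M 1 + cl M 1 + (e.1 : ℕ)) := by
    intro e he h
    have h1 := (rel_of_mem hM he).1
    have h2 := hS 0 (e.1 : ℕ) (by omega)
    refine ⟨op_eq_cl hM hN he, by omega, hS _ _ (by omega), hS _ _ (by omega), hCm _ _, hOm _ _,
      hOm _ _, hCm _ _ (by omega), hS _ _, h1, hS _ _⟩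
  rcases h0 with hA | hA <;> rcases h2k with hB | hB
  · -- both matched
    rcases tri hM (k + 2) with ⟨e, he, h1, h2, h3⟩ | ⟨e, he, h1, h2, h3⟩ | ⟨h0a, h0b, h2, h3⟩
    · rw [show k + 2 + 1 = k + 3 by ring] at h2 h3
      omega
    · rw [show k + 2 + 1 = k + 3 by ring] at h2 h3
      have hp := hpos e he (by omega)
      rw [h1] at hp
      by_cases hc : cl M (k + 2) = 2
      · exact hbad e he (by omega) (by omega)
      · -- cl = 1, look at k+3
        rcases tri hM (k + 3) with ⟨f, hf, g1, g2, g3⟩ | ⟨f, hf, g1, g2, g3⟩ | ⟨-, -, g2, g3⟩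
        · rw [show k + 3 + 1 = k + 4 by ring] at g2 g3
          omega
        · rw [show k + 3 + 1 = k + 4 by ring] at g2 g3
          have hq := hpos f hf (by omega)
          rw [g1] at hq
          exact hbad f hf (by omega) (by omega)
        · rw [show k + 3 + 1 = k + 4 by ring] at g2 g3
          omega
    · rw [show k + 2 + 1 = k + 3 by ring] at h2 h3
      rcases tri hM (k + 3) with ⟨f, hf, g1, g2, g3⟩ | ⟨f, hf, g1, g2, g3⟩ | ⟨-, -, g2, g3⟩
      · rw [show k + 3 + 1 = k + 4 by ring] at g2 g3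
        omega
      · rw [show k + 3 + 1 = k + 4 by ring] at g2 g3
        have hq := hpos f hf (by omega)
        rw [g1] at hq
        have hne := h0a f hf
        exact hbad f hf (by omega) (by omega)
      · rw [show k + 3 + 1 = k + 4 by ring] at g2 g3
        omega
  · -- 2k omitted
    rcases tri hM (k + 2) with ⟨e, he, h1, h2, h3⟩ | ⟨e, he, h1, h2, h3⟩ | ⟨h0a, h0b, h2, h3⟩
    · rw [show k + 2 + 1 = k + 3 by ring] at h2 h3
      rcases tri hM (k + 3) with ⟨f, hf, g1, g2, g3⟩ | ⟨f, hf, g1, g2, g3⟩ | ⟨-, -, g2, g3⟩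
      · rw [show k + 3 + 1 = k + 4 by ring] at g2 g3
        omega
      · rw [show k + 3 + 1 = k + 4 by ring] at g2 g3
        have hq := hpos f hf (by omega)
        rw [g1] at hq
        exact hbad f hf (by omega) (by omega)
      · rw [show k + 3 + 1 = k + 4 by ring] at g2 g3
        omega
    · rw [show k + 2 + 1 = k + 3 by ring] at h2 h3
      have hp := hpos e he (by omega)
      rw [h1] at hp
      exact hbad e he (by omega) (by omega)
    · rw [show k + 2 + 1 = k + 3 by ring] at h2 h3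
      omega
  · -- 0 omitted
    rcases tri hM (k + 2) with ⟨e, he, h1, h2, h3⟩ | ⟨e, he, h1, h2, h3⟩ | ⟨h0a, h0b, h2, h3⟩
    · rw [show k + 2 + 1 = k + 3 by ring] at h2 h3
      omega
    · rw [show k + 2 + 1 = k + 3 by ring] at h2 h3
      have hp := hpos e he (by omega)
      rw [h1] at hp
      exact hbad e he (by omega) (by omega)
    · rw [show k + 2 + 1 = k + 3 by ring] at h2 h3
      omega
  · omega

/-! ### counting edges -/

/-- all pairs `x < y < m` -/
def pairs (m : ℕ) : Finset (ℕ × ℕ) := (range m ×ˢ range m).filter (fun p => p.1 < p.2)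

lemma mem_pairs {m : ℕ} {p : ℕ × ℕ} : p ∈ pairs m ↔ p.1 < p.2 ∧ p.2 < m := by
  simp only [pairs, Finset.mem_filter, Finset.mem_product, Finset.mem_range]
  omega

lemma card_pairs (m : ℕ) : (pairs m).card * 2 = m * (m - 1) := by
  have h : (pairs m).card = ∑ i ∈ range m, i := by
    induction m with
    | zero => simp [pairs]
    | succ m ih =>
      have h1 : pairs (m + 1) = pairs m ∪ (range m).image (fun x => (x, m)) := by
        ext ⟨x, y⟩
        simp only [Finset.mem_union, mem_pairs, Finset.mem_image, Finset.mem_range, Prod.mk.injEq]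
        constructor
        · rintro ⟨h1, h2⟩
          by_cases hy : y = m
          · right
            exact ⟨x, by omega, rfl, hy.symm⟩
          · left
            omega
        · rintro (h | ⟨a, h1, h2, h3⟩)
          · omega
          · omega
      rw [h1, Finset.card_union_of_disjoint, ih, Finset.sum_range_succ,
        Finset.card_image_of_injective, Finset.card_range]
      · intro a b hab
        simpa using hab
      · rw [Finset.disjoint_left]
        rintro ⟨x, y⟩ h2 h3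
        rw [mem_pairs] at h2
        simp only [Finset.mem_image, Finset.mem_range, Prod.mk.injEq] at h3
        obtain ⟨a, h4, h5, h6⟩ := h3
        simp only at h2
        omega
  rw [h, Finset.sum_range_id_mul_two]

/-- the set of missing pairs -/
def missing (k : ℕ) : Finset (ℕ × ℕ) :=
  (Ico 1 (k - 1)).image (fun y => (0, y)) ∪ (Ico (k + 2) (2 * k)).image (fun x => (x, 2 * k)) ∪
    ({2, 3} ×ˢ {k + 2, k + 3})

lemma card_missing {k : ℕ} (hk : 5 ≤ k) : (missing k).card ≤ 2 * k := by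
  unfold missing
  have h1 := Finset.card_union_le
    ((Ico 1 (k - 1)).image (fun y => ((0 : ℕ), y)) ∪
      (Ico (k + 2) (2 * k)).image (fun x => (x, 2 * k)))
    (({2, 3} : Finset ℕ) ×ˢ ({k + 2, k + 3} : Finset ℕ))
  have h2 := Finset.card_union_le ((Ico 1 (k - 1)).image (fun y => ((0 : ℕ), y)))
      ((Ico (k + 2) (2 * k)).image (fun x => (x, 2 * k)))
  have h3 : ((Ico 1 (k - 1)).image (fun y => ((0 : ℕ), y))).card ≤ k - 2 := by
    refine le_trans Finset.card_image_le ?_
    rw [Nat.card_Ico]; omega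
  have h4 : ((Ico (k + 2) (2 * k)).image (fun x => (x, 2 * k))).card ≤ k - 2 := by
    refine le_trans Finset.card_image_le ?_
    rw [Nat.card_Ico]; omega
  have h5 : (({2, 3} : Finset ℕ) ×ˢ ({k + 2, k + 3} : Finset ℕ)).card ≤ 4 := by
    rw [Finset.card_product]
    exact Nat.mul_le_mul (Finset.card_le_two) (Finset.card_le_two)
  omega

lemma count_general {n k : ℕ} (hk : 5 ≤ k) (hn : 2 * k + 1 ≤ n) :
    (k - 1) * n + 1 ≤ (mk n (Rel k)).edgeSet.ncard := by
  have hcard := card_edges (n := n) (R := Rel k)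
    ((pairs (2 * k + 1) \ missing k) ∪ (range (k - 1) ×ˢ Ico (2 * k + 1) n)) (by
      rintro ⟨x, y⟩ hp
      rw [Finset.mem_union] at hp
      rcases hp with hp | hp
      · rw [Finset.mem_sdiff, mem_pairs] at hp
        obtain ⟨⟨h1, h2⟩, h3⟩ := hp
        simp only at h1 h2
        refine ⟨h1, by show y < n; omega, ?_⟩
        constructor
        · intro _
          simp only [missing, Finset.mem_union, Finset.mem_image, Finset.mem_Ico, Prod.mk.injEq,
            Finset.mem_product, Finset.mem_insert, Finset.mem_singleton, not_or] at h3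
          refine ⟨?_, ?_, ?_⟩
          · rintro ⟨h4, h5⟩
            exact h3.1.1 ⟨y, ⟨by simp only at h4; omega, h5⟩, h4.symm, rfl⟩
          · rintro ⟨h4, h5⟩
            exact h3.1.2 ⟨x, ⟨h5, by simp only at h4; omega⟩, rfl, h4.symm⟩
          · exact h3.2
        · intro h
          simp only at h
          omega
      · rw [Finset.mem_product, Finset.mem_range, Finset.mem_Ico] at hp
        simp only at hp
        refine ⟨by show x < y; omega, hp.2.2, ?_⟩
        constructor
        · intro h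
          simp only at h
          omega
        · intro _
          exact hp.1)
  refine le_trans ?_ hcard
  rw [Finset.card_union_of_disjoint]
  · have h1 := Finset.le_card_sdiff (missing k) (pairs (2 * k + 1))
    have h2 := card_missing hk
    have h3 := card_pairs (2 * k + 1)
    have h4 : (range (k - 1) ×ˢ Ico (2 * k + 1) n).card = (k - 1) * (n - (2 * k + 1)) := by
      rw [Finset.card_product, Finset.card_range, Nat.card_Ico]
    rw [h4]
    obtain ⟨m, rfl⟩ : ∃ m, n = 2 * k + 1 + m := ⟨n - (2 * k + 1), by omega⟩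
    obtain ⟨j, rfl⟩ : ∃ j, k = j + 1 := ⟨k - 1, by omega⟩
    simp only [Nat.add_sub_cancel_left, Nat.add_sub_cancel] at *
    have h5 : (pairs (2 * (j + 1) + 1)).card = (2 * (j + 1) + 1) * (j + 1) := by nlinarith
    have h6 : j * (2 * (j + 1) + 1 + m) + 1 + 2 * (j + 1) = (2 * (j + 1) + 1) * (j + 1) + j * m := by
      ring
    omega
  · rw [Finset.disjoint_left]
    rintro ⟨x, y⟩ h1 h2
    rw [Finset.mem_sdiff, mem_pairs] at h1
    rw [Finset.mem_product, Finset.mem_range, Finset.mem_Ico] at h2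
    simp only at h1 h2
    omega

/-! ### the case `k = 4` -/

/-- the missing pairs below 9 -/
def missing4 : Finset (ℕ × ℕ) :=
  {(2, 6), (2, 7), (4, 6), (4, 7), (4, 8), (6, 7), (6, 8), (7, 8)}

/-- the relation for `k = 4` -/
def Rel4 (x y : ℕ) : Prop := (y < 9 → (x, y) ∉ missing4) ∧ (9 ≤ y → x < 3)

/-- the pairs present below 9 -/
def present4 : List (ℕ × ℕ) :=
  [(0, 1), (0, 2), (0, 3), (0, 4), (0, 5), (0, 6), (0, 7), (0, 8), (1, 2), (1, 3), (1, 4), (1, 5),
   (1, 6), (1, 7), (1, 8), (2, 3), (2, 4), (2, 5), (2, 8), (3, 4), (3, 5), (3, 6), (3, 7), (3, 8),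
   (4, 5), (5, 6), (5, 7), (5, 8)]

lemma mem_present4 : ∀ y ∈ range 9, ∀ x ∈ range y, (x, y) ∉ missing4 → (x, y) ∈ present4 := by
  decide +kernel

/-- `p` starts before `q`, and they are disjoint and not nested -/
def okb (p q : ℕ × ℕ) : Bool := decide (p.1 < q.1) && decide (p.2 < q.2) && decide (p.2 ≠ q.1)

/-- transitivity of crossing for three edges in order -/
def trb (p q r : ℕ × ℕ) : Bool := !(decide (q.1 < p.2) && decide (r.1 < q.2)) || decide (r.1 < p.2)

lemma check4 : (present4.all fun p0 => present4.all fun p1 => !(okb p0 p1) ||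
    present4.all fun p2 => !(okb p0 p2) || !(okb p1 p2) || !(trb p0 p1 p2) ||
      present4.all fun p3 => !(okb p0 p3) || !(okb p1 p3) || !(okb p2 p3) ||
        !(trb p0 p1 p3 && trb p0 p2 p3 && trb p1 p2 p3)) = true := by
  decide +kernel

theorem no_strongly4 {n : ℕ} :
    ¬ ∃ M, IsMatchingOf (mk n Rel4) M ∧ M.card = 4 ∧ StronglyNonNested M := by
  rintro ⟨M, hM, hcard, hSN⟩
  have hN := nonNested_of_strongly hM hSN
  have hlong : ∀ e ∈ M, (e.2 : ℕ) < 9 := by
    apply no_long (k := 4) _ hM hN hcard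
    intro x y h1 h2
    exact h1.2 h2
  have hmem : ∀ e ∈ M, ((e.1 : ℕ), (e.2 : ℕ)) ∈ present4 := by
    intro e he
    have h1 := rel_of_mem hM he
    have h2 := hlong e he
    exact mem_present4 _ (Finset.mem_range.2 h2) _ (Finset.mem_range.2 h1.1) (h1.2.1 h2)
  have hA : (M.image (fun e => e.1)).card = 4 := by
    rw [Finset.card_image_of_injOn, hcard]
    intro e he f hf hef
    by_contra hne
    exact (hM.2 e he f hf hne).1 hef
  have hex : ∀ i : Fin 4, ∃ e ∈ M, e.1 = (M.image (fun e => e.1)).orderEmbOfFin hA i := by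
    intro i
    have := Finset.orderEmbOfFin_mem _ hA i
    rw [Finset.mem_image] at this
    exact this
  choose e he1 he2 using hex
  have hlt : ∀ i j : Fin 4, i < j → (e i).1 < (e j).1 := by
    intro i j hij
    rw [he2, he2]
    exact (Finset.orderEmbOfFin _ hA).strictMono hij
  have hok : ∀ i j : Fin 4, i < j →
      okb ((e i).1, (e i).2) ((e j).1, (e j).2) = true := by
    intro i j hij
    have h1 := hlt i j hij
    have hne : e i ≠ e j := fun h => h1.ne (by rw [h])
    have h2 := hN _ (he1 i) _ (he1 j) hne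
    have h3 := hM.2 _ (he1 i) _ (he1 j) hne
    unfold Nested at h2
    simp only [Fin.lt_def] at h1 h2
    simp only [okb, Bool.and_eq_true, decide_eq_true_eq]
    refine ⟨⟨h1, ?_⟩, ?_⟩
    · by_contra hcon
      apply h3.2.2.2
      apply Fin.ext
      omega
    · intro h
      exact h3.2.2.1 (Fin.ext h)
  obtain ⟨part, hpart⟩ := hSN
  have htr : ∀ i j l : Fin 4, i < j → j < l →
      trb ((e i).1, (e i).2) ((e j).1, (e j).2) ((e l).1, (e l).2) = true := by
    intro i j l hij hjl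
    have h1 := hlt i j hij
    have h2 := hlt j l hjl
    have h3 := hlt i l (hij.trans hjl)
    have n1 : e i ≠ e j := fun h => h1.ne (by rw [h])
    have n2 : e j ≠ e l := fun h => h2.ne (by rw [h])
    have n3 : e i ≠ e l := fun h => h3.ne (by rw [h])
    have p1 := hpart _ (he1 i) _ (he1 j) n1
    have p2 := hpart _ (he1 j) _ (he1 l) n2
    have p3 := hpart _ (he1 i) _ (he1 l) n3
    have q1 := (hM.1 _ (he1 i)).1
    have q2 := (hM.1 _ (he1 j)).1
    have q3 := (hM.1 _ (he1 l)).1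
    unfold Crossing Separated at p1 p2 p3
    simp only [Fin.lt_def] at h1 h2 h3 p1 p2 p3 q1 q2 q3
    simp only [trb, Bool.or_eq_true, Bool.not_eq_true', Bool.and_eq_false_iff,
      decide_eq_true_eq, decide_eq_false_iff_not]
    by_cases g1 : ((e j).1 : ℕ) < (e i).2
    · by_cases g2 : ((e l).1 : ℕ) < (e j).2
      · right
        have r1 : part (e i) = part (e j) := by
          by_contra hcon
          have := p1.2 hcon
          omega
        have r2 : part (e j) = part (e l) := by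
          by_contra hcon
          have := p2.2 hcon
          omega
        have := p3.1 (r1.trans r2)
        omega
      · left; right; exact g2
    · left; left; exact g1
  have hc := check4
  have k0 := List.all_eq_true.1 hc _ (hmem _ (he1 0))
  have k1 := List.all_eq_true.1 k0 _ (hmem _ (he1 1))
  rw [hok 0 1 (by decide)] at k1
  simp only [Bool.not_true, Bool.false_or] at k1
  have k2 := List.all_eq_true.1 k1 _ (hmem _ (he1 2))
  rw [hok 0 2 (by decide), hok 1 2 (by decide), htr 0 1 2 (by decide) (by decide)] at k2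
  simp only [Bool.not_true, Bool.false_or] at k2
  have k3 := List.all_eq_true.1 k2 _ (hmem _ (he1 3))
  rw [hok 0 3 (by decide), hok 1 3 (by decide), hok 2 3 (by decide),
    htr 0 1 3 (by decide) (by decide), htr 0 2 3 (by decide) (by decide),
    htr 1 2 3 (by decide) (by decide)] at k3
  simp at k3

lemma count4 {n : ℕ} (hn : 9 ≤ n) : 3 * n + 1 ≤ (mk n Rel4).edgeSet.ncard := by
  have hcard := card_edges (n := n) (R := Rel4)
    ((pairs 9 \ missing4) ∪ (range 3 ×ˢ Ico 9 n)) (by
      rintro ⟨x, y⟩ hp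
      rw [Finset.mem_union] at hp
      rcases hp with hp | hp
      · rw [Finset.mem_sdiff, mem_pairs] at hp
        obtain ⟨⟨h1, h2⟩, h3⟩ := hp
        simp only at h1 h2
        refine ⟨h1, by show y < n; omega, fun _ => h3, fun h => ?_⟩
        simp only at h
        omega
      · rw [Finset.mem_product, Finset.mem_range, Finset.mem_Ico] at hp
        simp only at hp
        refine ⟨by show x < y; omega, hp.2.2, fun h => ?_, fun _ => hp.1⟩
        simp only at h
        omega)
  refine le_trans ?_ hcard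
  rw [Finset.card_union_of_disjoint]
  · have h1 : (pairs 9 \ missing4).card = 28 := by decide +kernel
    rw [h1, Finset.card_product, Finset.card_range, Nat.card_Ico]
    omega
  · rw [Finset.disjoint_left]
    rintro ⟨x, y⟩ h1 h2
    rw [Finset.mem_sdiff, mem_pairs] at h1
    rw [Finset.mem_product, Finset.mem_range, Finset.mem_Ico] at h2
    simp only at h1 h2
    omega

/-! ### the main result -/

lemma le_exNonNested {n k : ℕ} (G : SimpleGraph (Fin n))
    (h : ¬ ∃ M, IsMatchingOf G M ∧ M.card = k ∧ NonNested M) :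
    G.edgeSet.ncard ≤ exNonNested n k := by
  apply le_csSup
  · refine ⟨Nat.card (Sym2 (Fin n)), ?_⟩
    rintro m ⟨G', rfl, -⟩
    exact Set.ncard_le_card _
  · exact ⟨G, rfl, h⟩

lemma le_exStronglyNonNested {n k : ℕ} (G : SimpleGraph (Fin n))
    (h : ¬ ∃ M, IsMatchingOf G M ∧ M.card = k ∧ StronglyNonNested M) :
    G.edgeSet.ncard ≤ exStronglyNonNested n k := by
  apply le_csSup
  · refine ⟨Nat.card (Sym2 (Fin n)), ?_⟩
    rintro m ⟨G', rfl, -⟩
    exact Set.ncard_le_card _
  · exact ⟨G, rfl, h⟩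

/-- The conjectured equality fails: for `k ≥ 5` both ordered Turán numbers exceed `(k - 1) n` for
all `n ≥ 2k + 1`, and for `k = 4` the starred one exceeds `3 n` for all `n ≥ 9`. -/
theorem result :
    (∀ k n : ℕ, 5 ≤ k → 2 * k + 1 ≤ n →
      (k - 1) * n + 1 ≤ exNonNested n k ∧ (k - 1) * n + 1 ≤ exStronglyNonNested n k) ∧
    (∀ n : ℕ, 9 ≤ n → 3 * n + 1 ≤ exStronglyNonNested n 4) ∧
    ¬ (∀ n k : ℕ, 1 ≤ k → 2 * k ≤ n →
      exNonNested n k = (k - 1) * n ∧ exStronglyNonNested n k = (k - 1) * n) := by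
  have h1 : ∀ k n : ℕ, 5 ≤ k → 2 * k + 1 ≤ n →
      (k - 1) * n + 1 ≤ exNonNested n k ∧ (k - 1) * n + 1 ≤ exStronglyNonNested n k := by
    intro k n hk hn
    have h2 := count_general hk hn
    have h3 := no_nonNested (n := n) hk
    constructor
    · exact h2.trans (le_exNonNested _ h3)
    · refine h2.trans (le_exStronglyNonNested _ ?_)
      rintro ⟨M, hM, hc, hS⟩
      exact h3 ⟨M, hM, hc, nonNested_of_strongly hM hS⟩
  refine ⟨h1, ?_, ?_⟩
  · intro n hn
    exact (count4 hn).trans (le_exStronglyNonNested _ no_strongly4)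
  · intro h
    have h2 := (h 11 5 (by norm_num) (by norm_num)).1
    have h3 := (h1 5 11 le_rfl (by norm_num)).1
    omega

end Pool.Agent.Results.MP_19ad23_co.NonNestedFails
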